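import Pool.Agent.ARC.StmtsP

/-!
# Row TGB of squad ARC: signs
-/

set_option autoImplicit false

namespace Pool.Agent.ARC.H92

open Pool.Agent

/-- the exponential map as a homomorphism of additive groups -/
noncomputable def ex : ℂ →+ Additive ℂˣ where
  toFun t := Additive.ofMul (Units.mk0 (Complex.exp t) (Complex.exp_ne_zero t))
  map_zero' := by
    apply Additive.toMul.injective
    apply Units.ext
    change Complex.exp 0 = 1
    exact Complex.exp_zero
  map_add' a b := by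
    apply Additive.toMul.injective
    apply Units.ext
    change Complex.exp (a + b) = Complex.exp a * Complex.exp b
    exact Complex.exp_add a b

theorem ex_surj : Function.Surjective ex := by
  intro u
  refine ⟨Complex.log ((Additive.toMul u : ℂˣ) : ℂ), ?_⟩
  apply Additive.toMul.injective
  apply Units.ext
  exact Complex.exp_log (Units.ne_zero _)

/-- **TGB** -/
theorem tgb (h1 : SZG.PlgStmt) (h2 : SZG.QffStmt) : TgbStmt := by
  intro I _ _ _ ρ hρ hpar
  have hr : ∀ i, ρ i / ρ 0 ≠ 0 := fun i => div_ne_zero (hρ i) (hρ 0)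
  obtain ⟨h, hh⟩ : ∃ h : I → Additive ℂˣ, ∀ i, h i = Additive.ofMul (Units.mk0 (ρ i / ρ 0) (hr i)) :=
    ⟨_, fun _ => rfl⟩
  have hpar' : ∀ i j, ρ (i + j) / ρ 0 * (ρ (i - j) / ρ 0) = (ρ i / ρ 0) ^ 2 * (ρ j / ρ 0) ^ 2 := by
    intro i j
    have h0 := hρ 0
    have h3 := hpar i j
    field_simp
    linear_combination h3
  have hh0 : h 0 = 0 := by
    rw [hh]
    apply Additive.toMul.injective
    apply Units.ext
    change ρ 0 / ρ 0 = 1
    exact div_self (hρ 0)
  have hlaw : ∀ i j, h (i + j) + h (i - j) = 2 • h i + 2 • h j := by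
    intro i j
    rw [hh, hh, hh, hh]
    apply Additive.toMul.injective
    apply Units.ext
    change ρ (i + j) / ρ 0 * (ρ (i - j) / ρ 0) =
      ((Additive.toMul (2 • Additive.ofMul (Units.mk0 (ρ i / ρ 0) (hr i)) : Additive ℂˣ) : ℂˣ) : ℂ) *
      ((Additive.toMul (2 • Additive.ofMul (Units.mk0 (ρ j / ρ 0) (hr j)) : Additive ℂˣ) : ℂˣ) : ℂ)
    rw [toMul_nsmul, toMul_nsmul, toMul_ofMul, toMul_ofMul, Units.val_pow_eq_pow_val,
      Units.val_pow_eq_pow_val, Units.val_mk0, Units.val_mk0]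
    exact hpar' i j
  obtain ⟨hneg, hcub⟩ := h1 I (Additive ℂˣ) h hh0 hlaw
  obtain ⟨B0, hs, ha, hex⟩ := h2 I (Additive ℂˣ) ex (fun i => 2 • h i) ex_surj
    (by
      change 2 • h 0 = 0
      rw [hh0, smul_zero])
    (by
      intro i
      rw [hneg])
    hcub
  have hexp : ∀ i, Complex.exp (B0 i i) = (ρ i / ρ 0) ^ 2 := by
    intro i
    have h3 := congrArg (fun u : Additive ℂˣ => ((Additive.toMul u : ℂˣ) : ℂ)) (hex i)
    have h4 : ((Additive.toMul (2 • h i : Additive ℂˣ) : ℂˣ) : ℂ) = (ρ i / ρ 0) ^ 2 := by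
      rw [toMul_nsmul, hh, toMul_ofMul, Units.val_pow_eq_pow_val, Units.val_mk0]
    exact h3.trans h4
  obtain ⟨B, hB⟩ : ∃ B : I → I → ℂ, ∀ i j, B i j = B0 i j / 2 := ⟨_, fun _ _ => rfl⟩
  have hBs : ∀ i j, B i j = B j i := by
    intro i j
    rw [hB, hB, hs]
  have hBa : ∀ i j k, B (i + j) k = B i k + B j k := by
    intro i j k
    rw [hB, hB, hB, ha]
    ring
  have hBr : ∀ i j k, B i (j + k) = B i j + B i k := by
    intro i j k
    rw [hBs, hBa, hBs j, hBs k]
  have hB0 : ∀ k, B 0 k = 0 := by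
    intro k
    have h3 := hBa 0 0 k
    rw [add_zero] at h3
    linear_combination -h3
  have hBn : ∀ i k, B (-i) k = - B i k := by
    intro i k
    have h3 := hBa (-i) i k
    rw [neg_add_cancel, hB0] at h3
    linear_combination -h3
  have hBn' : ∀ i k, B i (-k) = - B i k := by
    intro i k
    rw [hBs, hBn, hBs k]
  have hBp : ∀ i j, B (i + j) (i + j) + B (i - j) (i - j) = 2 * B i i + 2 * B j j := by
    intro i j
    rw [sub_eq_add_neg, hBa, hBa, hBr, hBr, hBr, hBr, hBn, hBn, hBn', hBn']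
    ring
  obtain ⟨ε, hε⟩ : ∃ ε : I → ℂ, ∀ i, ε i = ρ i / ρ 0 * Complex.exp (-(B i i)) :=
    ⟨_, fun _ => rfl⟩
  have hε2 : ∀ i, ε i ^ 2 = 1 := by
    intro i
    rw [hε, mul_pow, ← hexp, ← Complex.exp_nat_mul, ← Complex.exp_add, hB]
    have h3 : B0 i i + ((2 : ℕ) : ℂ) * -(B0 i i / 2) = 0 := by
      push_cast
      ring
    rw [h3, Complex.exp_zero]
  have hεp : ∀ i j, ε (i + j) * ε (i - j) = 1 := by
    intro i j
    have h3 : ε (i + j) * ε (i - j) = (ρ (i + j) / ρ 0 * (ρ (i - j) / ρ 0)) *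
        Complex.exp (-(B (i + j) (i + j) + B (i - j) (i - j))) := by
      rw [hε, hε, neg_add, Complex.exp_add]
      ring
    have h4 : (ε i * ε j) ^ 2 = (ρ i / ρ 0) ^ 2 * (ρ j / ρ 0) ^ 2 *
        Complex.exp (-(2 * B i i + 2 * B j j)) := by
      have h5 : -(2 * B i i + 2 * B j j) = (-(B i i) + -(B i i)) + (-(B j j) + -(B j j)) := by ring
      rw [hε, hε, h5, Complex.exp_add, Complex.exp_add, Complex.exp_add]
      ring
    rw [h3, hBp, hpar', ← h4, mul_pow, hε2, hε2, one_mul]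
  have hεe : ∀ i j, ε (i + j) = ε (i - j) := by
    intro i j
    have h3 := hεp i j
    have h4 := hε2 (i - j)
    calc ε (i + j) = ε (i + j) * ε (i - j) ^ 2 := by rw [h4, mul_one]
      _ = (ε (i + j) * ε (i - j)) * ε (i - j) := by ring
      _ = ε (i - j) := by rw [h3, one_mul]
  refine ⟨B, ε, hBs, hBa, hε2, ?_, ?_, ?_⟩
  · intro i j
    rw [← add_assoc, hεe (i + j) j, add_sub_cancel_right]
  · rw [hε, hB0, neg_zero, Complex.exp_zero, mul_one, div_self (hρ 0)]
  · intro i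
    have h0 := hρ 0
    rw [hε]
    have h3 : Complex.exp (-(B i i)) * Complex.exp (B i i) = 1 := by
      rw [← Complex.exp_add, neg_add_cancel, Complex.exp_zero]
    calc ρ i = ρ 0 * (ρ i / ρ 0) := by field_simp
      _ = ρ 0 * (ρ i / ρ 0) * (Complex.exp (-(B i i)) * Complex.exp (B i i)) := by
          rw [h3, mul_one]
      _ = ρ 0 * (ρ i / ρ 0 * Complex.exp (-(B i i))) * Complex.exp (B i i) := by ring

end Pool.Agent.ARC.H92
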